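import Pool.Agent.H96.AL.Targets2

/-!
Quadratic form of the fundamental inequality at a foot (letter EQ of the board al_modules).
-/

open Real

namespace Pool.Agent.H59.AL

open Pool.Agent.H96.AL

theorem eq (hEX : T_EX) (hEL : T_EL) : T_EQ := by
  intro X _ D hX E hE z p hp y
  have e1 := hEX X hX.geo hX.cb E hE z p hp y
  have hA : 0 ≤ dist z y := dist_nonneg
  have hB : 0 ≤ dist p y := dist_nonneg
  have hd : 0 ≤ dist z p := dist_nonneg
  have hBD : dist p y ≤ D := hX.diam p y
  have hdD : dist z p ≤ D := hX.diam z p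
  have hc : cosh (dist p y) ≤ cosh D := by
    rw [cosh_le_cosh, abs_of_nonneg hB, abs_of_nonneg (hB.trans hBD)]
    exact hBD
  have hd2 : cosh (dist z p) - 1 ≤ dist z p ^ 2 / 2 * cosh D := (hEL D _ hd hdD).2.2.2.1
  have hD1 : 1 ≤ cosh D := one_le_cosh D
  rcases le_total (dist z y) (dist p y) with h | h
  · have : dist z y ^ 2 ≤ dist p y ^ 2 := pow_le_pow_left₀ hA h 2
    have : 0 ≤ cosh D ^ 2 * dist z p ^ 2 := by positivity
    linarith
  · have e2 : cosh (dist z y) - cosh (dist p y) =
        2 * (sinh ((dist z y + dist p y) / 2) * sinh ((dist z y - dist p y) / 2)) := by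
      have h1 : dist z y = (dist z y + dist p y) / 2 + (dist z y - dist p y) / 2 := by ring
      have h2 : dist p y = (dist z y + dist p y) / 2 - (dist z y - dist p y) / 2 := by ring
      conv_lhs => rw [h1]
      rw [cosh_add]
      conv_lhs =>
        enter [2]
        rw [h2]
      rw [cosh_sub]
      ring
    have h1 : (dist z y + dist p y) / 2 ≤ sinh ((dist z y + dist p y) / 2) :=
      self_le_sinh_iff.2 (by positivity)
    have h2 : (dist z y - dist p y) / 2 ≤ sinh ((dist z y - dist p y) / 2) :=
      self_le_sinh_iff.2 (by linarith)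
    have h3 : (dist z y + dist p y) / 2 * ((dist z y - dist p y) / 2) ≤
        sinh ((dist z y + dist p y) / 2) * sinh ((dist z y - dist p y) / 2) :=
      mul_le_mul h1 h2 (by linarith) (by linarith [add_nonneg hA hB])
    have h4 : cosh (dist z y) - cosh (dist p y) ≤ (cosh (dist z p) - 1) * cosh (dist p y) := by
      linarith
    have h5 : (cosh (dist z p) - 1) * cosh (dist p y) ≤
        (dist z p ^ 2 / 2 * cosh D) * cosh D :=
      mul_le_mul hd2 hc (cosh_pos _).le (by positivity)
    nlinarith

end Pool.Agent.H59.AL
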