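import Pool.Agent.H96.AL.Targets1

/-!
The hinge at an interior point of a shortest path (letter HG of the board al_modules).
-/

open Real

namespace Pool.Agent.H59.AL

open Pool.Agent.H96.AL

theorem hg : T_HG := by
  intro X _ hCB z w u v y h1 h2 hwu hwy
  have e1 := hCB u w y v h2
  have e2 := hCB v z u w h1
  have hl : 0 < sinh (dist w y) := sinh_pos_iff.2 (dist_pos.2 hwy)
  have hs1 : 0 < sinh (dist w u) := sinh_pos_iff.2 (dist_pos.2 hwu)
  have hs : 0 ≤ sinh (dist z w) := sinh_nonneg_iff.2 dist_nonneg
  have e3 : dist v y = dist w y - dist w v := by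
    have : dist w v + dist v y = dist w y := h2
    linarith
  have e4 : dist z u = dist z w + dist w u := by
    have : dist z w + dist w u = dist z u := h1
    linarith
  rw [e3, sinh_sub, dist_comm u w] at e1
  rw [e4, sinh_add, dist_comm v u, dist_comm v w] at e2
  have e5 := mul_le_mul_of_nonneg_left e1 hs
  have e6 := mul_le_mul_of_nonneg_left e2 hl.le
  have key : cosh (dist v z) * (sinh (dist w u) * sinh (dist w y)) ≤
      cosh (dist z w) * cosh (dist w v) * (sinh (dist w u) * sinh (dist w y)) +
      sinh (dist z w) * sinh (dist w v) *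
        (cosh (dist w u) * cosh (dist w y) - cosh (dist u y)) := by
    nlinarith
  unfold cc
  have hpos : 0 < sinh (dist w u) * sinh (dist w y) := mul_pos hs1 hl
  rw [← mul_div_assoc, ← sub_le_iff_le_add', le_div_iff₀ hpos]
  nlinarith

end Pool.Agent.H59.AL
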